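import Mathlib
import Pool.Agent.W536.LM.Stm

/-!
# Positivity at the fixed points
-/

set_option autoImplicit false

namespace Pool.Agent.W768.LM
open Polynomial W536.LM

theorem quad {R : Type} [CommRing R] (a b c r1 r2 : R) (hb : a * (r1 + r2) = -b)
    (hc : a * (r1 * r2) = c) :
    C a * X ^ 2 + C b * X + C c = C a * (X - C r1) * (X - C r2) := by
  have e1 : b = -(a * (r1 + r2)) := by rw [hb, neg_neg]
  rw [e1, ← hc]
  simp only [C_mul, C_add, C_neg]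
  ring

theorem fin1 (a r1 x k g1 g2 : ℝ) (hr : r1 ≠ 0) (hx : x ≠ 0) (hk : 0 < k)
    (h : (g2 : ℂ) * (r1 : ℂ) ^ (2 ^ (4 + 1)) * (x : ℂ) ^ (2 ^ (4 + 1)) = (k : ℂ) * (g1 : ℂ)) :
    0 ≤ a ^ (2 ^ (4 + 1)) * (g1 * g2) := by
  have h7 : g2 * r1 ^ (2 ^ (4 + 1)) * x ^ (2 ^ (4 + 1)) = k * g1 := by exact_mod_cast h
  have hev : Even (2 ^ (4 + 1)) := ⟨16, by norm_num⟩
  have h8 : 0 < r1 ^ (2 ^ (4 + 1)) * x ^ (2 ^ (4 + 1)) :=
    mul_pos (hev.pow_pos hr) (hev.pow_pos hx)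
  have h9 : 0 ≤ g1 * g2 := by
    have h10 : (g1 * g2) * (r1 ^ (2 ^ (4 + 1)) * x ^ (2 ^ (4 + 1))) = k * g1 ^ 2 := by
      linear_combination g1 * h7
    have h11 : 0 ≤ k * g1 ^ 2 := mul_nonneg hk.le (sq_nonneg _)
    rw [← h10] at h11
    exact nonneg_of_mul_nonneg_left h11 h8
  exact mul_nonneg (hev.pow_nonneg a) h9

theorem fin2 (a h : ℝ) (g : ℂ)
    (h5 : (h : ℂ) = (a : ℂ) ^ (2 ^ (4 + 1)) * (g * (starRingEnd ℂ) g)) : 0 ≤ h := by
  rw [Complex.mul_conj] at h5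
  have h6 : h = a ^ (2 ^ (4 + 1)) * Complex.normSq g := by exact_mod_cast h5
  rw [h6]
  have hev : Even (2 ^ (4 + 1)) := ⟨16, by norm_num⟩
  exact mul_nonneg (hev.pow_nonneg a) (Complex.normSq_nonneg _)

theorem t_POS (hN : S_NAT) (hF : S_FAC) (hQ : S_EQ) : S_POS := by
  intro P hL hm hmL x hx
  have hm0 := hm 0
  have hm1 := hm 1
  have hx0 : x ≠ 0 := by
    rintro rfl
    rw [zero_pow two_ne_zero, mul_zero] at hx
    exact hm0.ne hx
  have hx1 : x - 1 ≠ 0 := by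
    intro h
    have : x = 1 := by linarith
    rw [this] at hx
    apply hmL
    linarith
  have hL0 := hL.ne'
  obtain ⟨a, ha⟩ : ∃ a, a = P.m 0 - P.L * x := ⟨_, rfl⟩
  have ha' : a = P.L * x * (x - 1) := by rw [ha, ← hx]; ring
  have ha0 : a ≠ 0 := by
    rw [ha']
    exact mul_ne_zero (mul_ne_zero hL0 hx0) hx1
  obtain ⟨b, hb⟩ : ∃ b, b = P.m 1 * x + (x - 1) * (P.m 0 - P.L * x) - P.e 0 * x := ⟨_, rfl⟩
  obtain ⟨c, hc⟩ : ∃ c, c = (x - 1) * P.m 1 * x := ⟨_, rfl⟩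
  have hca : c / a = P.m 1 / P.L := by
    rw [hc, ha']
    field_simp
  have hxx : P.m 0 / (P.L * x) = x := by
    rw [← hx]
    field_simp
  have hEp : Ep P.L (P.m 0) (P.m 1) (P.e 0) x = C a * X ^ 2 + C b * X + C c := by
    unfold Ep
    rw [ha, hb, hc]
  have hnat : ∀ (n : ℕ) (r : ℝ), ((G n P r x : ℝ) : ℂ) = G n P.cx (r : ℂ) (x : ℂ) := by
    intro n r
    exact hN n ℝ ℂ Complex.ofRealHom P r x
  by_cases hD : 0 ≤ b ^ 2 - 4 * a * c
  · obtain ⟨s, hs⟩ : ∃ s, s = Real.sqrt (b ^ 2 - 4 * a * c) := ⟨_, rfl⟩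
    have hss : s ^ 2 = b ^ 2 - 4 * a * c := by rw [hs, Real.sq_sqrt hD]
    obtain ⟨r1, hr1⟩ : ∃ r1, r1 = (-b + s) / (2 * a) := ⟨_, rfl⟩
    obtain ⟨r2, hr2⟩ : ∃ r2, r2 = (-b - s) / (2 * a) := ⟨_, rfl⟩
    have h1 : a * (r1 + r2) = -b := by
      rw [hr1, hr2]
      field_simp
      ring
    have h2 : a * (r1 * r2) = c := by
      rw [hr1, hr2]
      field_simp
      linear_combination -hss
    have h5 := hF 4 ℝ P a r1 r2 x x (by
      show Ep P.L (P.m 0) (P.m 1) (P.e 0) x = _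
      rw [hEp]
      exact quad a b c r1 r2 h1 h2)
    have h12 : r1 * r2 = P.m 1 / P.L := by
      rw [← hca, ← h2]
      field_simp
    have h12' : r1 * r2 ≠ 0 := by
      rw [h12]
      exact (div_pos hm1 hL).ne'
    have hr10 : r1 ≠ 0 := left_ne_zero_of_mul h12'
    have hr2' : P.m 1 / (P.L * r1) = r2 := by
      rw [div_eq_iff (mul_ne_zero hL0 hr10)]
      rw [eq_div_iff hL0] at h12
      linarith
    obtain ⟨k, hk, hEQ⟩ := hQ P hL hm 4 (by norm_num)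
    have h6 := hEQ (r1 : ℂ) (x : ℂ) (by exact_mod_cast hr10) (by exact_mod_cast hx0)
    have e1 : ((P.m (5 - 4) : ℝ) : ℂ) / ((P.L : ℂ) * (r1 : ℂ)) = (r2 : ℂ) := by
      rw [← hr2']
      push_cast
      rfl
    have e2 : ((P.m 0 : ℝ) : ℂ) / ((P.L : ℂ) * (x : ℂ)) = (x : ℂ) := by
      exact_mod_cast congrArg (fun z : ℝ => (z : ℂ)) hxx
    rw [e1, e2, ← hnat, ← hnat] at h6
    rw [h5]
    generalize G 4 P r2 x = g2 at h6 ⊢
    generalize G 4 P r1 x = g1 at h6 ⊢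
    exact fin1 a r1 x k g1 g2 hr10 hx0 hk h6
  · push Not at hD
    obtain ⟨s, hs⟩ : ∃ s, s = Real.sqrt (-(b ^ 2 - 4 * a * c)) := ⟨_, rfl⟩
    have hss : s ^ 2 = -(b ^ 2 - 4 * a * c) := by rw [hs, Real.sq_sqrt (by linarith)]
    have hssC : (s : ℂ) ^ 2 = -((b : ℂ) ^ 2 - 4 * a * c) := by exact_mod_cast hss
    have haC : (a : ℂ) ≠ 0 := by exact_mod_cast ha0
    obtain ⟨r, hr⟩ : ∃ r : ℂ, r = (-b + s * Complex.I) / (2 * a) := ⟨_, rfl⟩
    have hr' : (starRingEnd ℂ) r = (-b - s * Complex.I) / (2 * a) := by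
      rw [hr]
      simp only [map_div₀, map_add, map_neg, map_mul, Complex.conj_ofReal, Complex.conj_I,
        Complex.conj_ofNat]
      ring
    have h1 : (a : ℂ) * (r + (starRingEnd ℂ) r) = -(b : ℂ) := by
      rw [hr', hr]
      field_simp
      ring
    have h2 : (a : ℂ) * (r * (starRingEnd ℂ) r) = (c : ℂ) := by
      rw [hr', hr]
      field_simp
      linear_combination hssC - (s : ℂ) ^ 2 * Complex.I_sq
    have h5 := hF 4 ℂ P.cx (a : ℂ) r ((starRingEnd ℂ) r) (x : ℂ) (x : ℂ) (by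
      show Ep (P.L : ℂ) (P.m 0 : ℂ) (P.m 1 : ℂ) (P.e 0 : ℂ) (x : ℂ) = _
      have e3 : Ep (P.L : ℂ) (P.m 0 : ℂ) (P.m 1 : ℂ) (P.e 0 : ℂ) (x : ℂ) =
          C (a : ℂ) * X ^ 2 + C (b : ℂ) * X + C (c : ℂ) := by
        unfold Ep
        rw [ha, hb, hc]
        push_cast
        rfl
      rw [e3]
      exact quad _ _ _ _ _ h1 h2)
    have hconj : G 4 P.cx ((starRingEnd ℂ) r) (x : ℂ) = (starRingEnd ℂ) (G 4 P.cx r (x : ℂ)) := by
      rw [hN 4 ℂ ℂ (starRingEnd ℂ) P.cx r (x : ℂ)]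
      have e4 : P.cx.map (starRingEnd ℂ) = P.cx := by
        unfold Par.cx Par.map
        simp
      rw [e4, Complex.conj_ofReal]
    rw [hconj, ← hnat (4 + 1) x] at h5
    generalize G 4 P.cx r (x : ℂ) = g at h5
    show 0 ≤ G (4 + 1) P x x
    generalize G (4 + 1) P x x = h at h5 ⊢
    exact fin2 a h g h5

end Pool.Agent.W768.LM
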